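import Pool.Agent.helper62.HF.SpecV

/-! # Row hf:LCG (MP_07c750_an) -/

set_option autoImplicit false

open scoped MatrixGroups ContDiff Topology UpperHalfPlane ComplexConjugate
open UpperHalfPlane MeasureTheory Filter Set

namespace Pool.Agent.HV

open Pool.Agent.RS Pool.Agent.MS

private lemma LCG_am {x y X Y : ℝ} (hx : |x| ≤ X) (hy : |y| ≤ Y) : |x * y| ≤ X * Y := by
  rw [abs_mul]
  exact mul_le_mul hx hy (abs_nonneg _) ((abs_nonneg _).trans hx)

private lemma LCG_exp : Real.exp (1 / 4) ≤ 257 / 200 := by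
  have h1 : Real.exp 1 ≤ 2.7182818286 := Real.exp_one_lt_d9.le
  by_contra h
  rw [not_le] at h
  have h2 : Real.exp (1 / 4) ^ 4 = Real.exp 1 := by
    rw [← Real.exp_nat_mul]; norm_num
  have h3 : (257 / 200 : ℝ) ^ 4 < Real.exp (1 / 4) ^ 4 := pow_lt_pow_left₀ h (by norm_num) (by norm_num)
  rw [h2] at h3
  norm_num at h3 h1
  linarith

private lemma LCG_im {η : ℝ} (h0 : 0 < η) (h : |Real.log η| ≤ 1 / 4) : 200 / 257 ≤ η ∧ η ≤ 257 / 200 := by
  have h1 := abs_le.1 h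
  have h2 : η ≤ Real.exp (1 / 4) := (Real.log_le_iff_le_exp h0).1 h1.2
  have h3 : Real.exp (-(1 / 4)) ≤ η := (Real.le_log_iff_exp_le h0).1 (by linarith [h1.1])
  refine ⟨?_, h2.trans LCG_exp⟩
  refine le_trans ?_ h3
  rw [Real.exp_neg, show (200 / 257 : ℝ) = (257 / 200)⁻¹ by norm_num]
  exact inv_anti₀ (Real.exp_pos _) LCG_exp

/-- bounds for the lower right entry and the translation -/
private lemma LCG_bd (b v ξ p q c d u η : ℝ) (hb : 0 < b) (hb1 : b ≤ 1 / 100) (hv : 0 < v) (hv1 : v ≤ 1)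
    (hdet : p * d - q * c = 1) (hc : |c| ≤ b * v / 100) (hu : |u| ≤ b * v / 100) (hη : 0 < η)
    (hη1 : |Real.log η| ≤ 1 / 4) (hN : 0 < (c * u + d) ^ 2 + (c * η) ^ 2)
    (him : |Real.log (η / ((c * u + d) ^ 2 + (c * η) ^ 2))| ≤ 1 / 4)
    (hre : |(p * c * (u ^ 2 + η ^ 2) + (p * d + q * c) * u + q * d) / ((c * u + d) ^ 2 + (c * η) ^ 2) - ξ| ≤ b * v / 100) :
    3 / 4 ≤ |d| ∧ |d| ≤ 13 / 10 ∧ |ξ - q / d| ≤ 8 * (b * v) / 100 := by
  set N : ℝ := (c * u + d) ^ 2 + (c * η) ^ 2 with hNdef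
  obtain ⟨he1, he2⟩ := LCG_im hη hη1
  obtain ⟨hi1, hi2⟩ := LCG_im (div_pos hη hN) him
  have hbv : b * v ≤ 1 / 100 := by nlinarith
  have hbv0 : 0 < b * v := mul_pos hb hv
  have hc1 : |c| ≤ 1 / 10000 := by linarith
  have hu1 : |u| ≤ 1 / 10000 := by linarith
  -- N
  have hN1 : 3 / 5 ≤ N := by
    rw [div_le_iff₀ hN] at hi2
    nlinarith
  have hN2 : N ≤ 166 / 100 := by
    rw [le_div_iff₀ hN] at hi1
    nlinarith
  have hη2 : |η| ≤ 257 / 200 := by rw [abs_of_pos hη]; exact he2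
  have hce : |c * η| ≤ 1 / 10000 * (257 / 200) := LCG_am hc1 hη2
  have hce2 : (c * η) ^ 2 ≤ 1 / 1000000 := by
    rw [← sq_abs]
    have := pow_le_pow_left₀ (abs_nonneg _) hce 2
    refine this.trans (by norm_num)
  have hcu : |c * u| ≤ 1 / 10000 * (1 / 10000) := LCG_am hc1 hu1
  have hs1 : (c * u + d) ^ 2 ≤ 166 / 100 := by nlinarith [sq_nonneg (c * η)]
  have hs2 : 599 / 1000 ≤ (c * u + d) ^ 2 := by nlinarith
  have ht1 : |c * u + d| ≤ 129 / 100 := by
    apply abs_le_of_sq_le_sq _ (by norm_num)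
    refine hs1.trans (by norm_num)
  have ht2 : 77 / 100 ≤ |c * u + d| := by
    by_contra h
    rw [not_le] at h
    have h1 := pow_lt_pow_left₀ h (abs_nonneg _) (n := 2) (by norm_num)
    rw [sq_abs] at h1
    norm_num at h1
    linarith
  have hd1 : |d| ≤ 13 / 10 := by
    have h1 : d = (c * u + d) - c * u := by ring
    rw [h1]
    refine (abs_sub _ _).trans ?_
    linarith
  have hd2 : 3 / 4 ≤ |d| := by
    have h1 := abs_add_le (c * u) d
    linarith
  have hd0 : d ≠ 0 := by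
    intro h
    rw [h, abs_zero] at hd2
    linarith
  refine ⟨hd2, hd1, ?_⟩
  have hdpos : 0 < |d| := by linarith
  -- translation
  have hkey : (p * c * (u ^ 2 + η ^ 2) + (p * d + q * c) * u + q * d) / N - q / d = (c / d * (u ^ 2 + η ^ 2) + u) / N := by
    rw [div_sub_div _ _ hN.ne' hd0, div_eq_div_iff (mul_ne_zero hN.ne' hd0) hN.ne']
    have hc' : c / d * (u ^ 2 + η ^ 2) + u = (c * (u ^ 2 + η ^ 2) + u * d) / d := by
      field_simp
    rw [hc']
    have h1 : (p * c * (u ^ 2 + η ^ 2) + (p * d + q * c) * u + q * d) * d - N * q = c * (u ^ 2 + η ^ 2) + u * d := by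
      rw [hNdef]
      linear_combination (c * (u ^ 2 + η ^ 2) + u * d) * hdet
    rw [h1]
    field_simp
  have hcd : |c / d| ≤ b * v / 100 * (4 / 3) := by
    rw [abs_div, div_le_iff₀ hdpos]
    have : b * v / 100 ≤ b * v / 100 * (4 / 3) * |d| := by nlinarith
    linarith
  have hw : |u ^ 2 + η ^ 2| ≤ 166 / 100 := by
    have h1 : u ^ 2 ≤ 1 / 100000 := by
      rw [← sq_abs]
      have := pow_le_pow_left₀ (abs_nonneg _) hu1 2
      refine this.trans (by norm_num)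
    have h2 : η ^ 2 ≤ (257 / 200) ^ 2 := pow_le_pow_left₀ hη.le he2 2
    rw [abs_of_nonneg (by positivity)]
    norm_num at h2
    linarith
  have h3 : |(c / d * (u ^ 2 + η ^ 2) + u) / N| ≤ 7 * (b * v) / 100 := by
    rw [abs_div, abs_of_pos hN, div_le_iff₀ hN]
    refine (abs_add_le _ _).trans ?_
    have h4 := LCG_am hcd hw
    nlinarith
  have h5 : ξ - q / d = ((p * c * (u ^ 2 + η ^ 2) + (p * d + q * c) * u + q * d) / N - q / d) -
      ((p * c * (u ^ 2 + η ^ 2) + (p * d + q * c) * u + q * d) / N - ξ) := by ring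
  rw [h5]
  refine (abs_sub _ _).trans ?_
  rw [hkey]
  linarith

/-- final estimates -/
private lemma LCG_fin (b v z c D T q00 q01 q10 q11 : ℝ) (hb : 0 < b) (hb1 : b ≤ 1 / 100) (hv : 0 < v) (hv1 : v ≤ 1)
    (hc : |c| ≤ b * v / 100) (hz : |z| ≤ 8 * (b * v) / 100) (hD1 : 3 / 4 ≤ D) (hD2 : D ≤ 13 / 10) (hT : |T - 1| ≤ b / 10)
    (h00 : |q00 - 1| ≤ b) (h11 : |q11 - 1| ≤ b) (h01 : |q01| ≤ b * v) (h10 : |q10| ≤ b) :
    |T / D * (q00 * D - q01 * c) - 1| ≤ 4 * b ∧ |D / T * (q10 * D * z + q11 * (1 / D - c * z)) - 1| ≤ 4 * b ∧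
    |T / D * (q00 * D * z + q01 * (1 / D - c * z))| ≤ 4 * b * v ∧ |D / T * (q10 * D - q11 * c)| ≤ 4 * b := by
  have hbv : b * v ≤ b := by nlinarith
  have hbv0 : 0 < b * v := mul_pos hb hv
  have hT' := abs_le.1 hT
  have hT1 : 999 / 1000 ≤ T := by linarith [hT'.1]
  have hT2 : T ≤ 1001 / 1000 := by linarith [hT'.2]
  have hTpos : 0 < T := by linarith
  have hDpos : 0 < D := by linarith
  have hTa : |T| ≤ 1001 / 1000 := by rw [abs_of_pos hTpos]; exact hT2
  have hDa : |D| ≤ 13 / 10 := by rw [abs_of_pos hDpos]; exact hD2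
  have hTD : |T / D| ≤ 27 / 20 := by
    rw [abs_of_pos (div_pos hTpos hDpos), div_le_iff₀ hDpos]
    linarith
  have hDT : |D / T| ≤ 132 / 100 := by
    rw [abs_of_pos (div_pos hDpos hTpos), div_le_iff₀ hTpos]
    linarith
  have hDi : |1 / D| ≤ 4 / 3 := by
    rw [abs_of_pos (by positivity), div_le_iff₀ hDpos]
    linarith
  have hTi : |1 / T| ≤ 1002 / 1000 := by
    rw [abs_of_pos (by positivity), div_le_iff₀ hTpos]
    linarith
  have hq00 : |q00| ≤ 101 / 100 := by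
    have := abs_add_le (q00 - 1) 1
    rw [sub_add_cancel, abs_one] at this
    linarith
  have hq11 : |q11| ≤ 101 / 100 := by
    have := abs_add_le (q11 - 1) 1
    rw [sub_add_cancel, abs_one] at this
    linarith
  have hc1 : |c| ≤ 1 / 10000 := by linarith
  have hcb : |c| ≤ b / 100 := by linarith
  have hz1 : |z| ≤ 1 / 1000 := by linarith
  have hzb : |z| ≤ b / 10 := by linarith
  have hcz : |1 / D - c * z| ≤ 134 / 100 := by
    refine (abs_sub _ _).trans ?_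
    have := LCG_am hc1 hz1
    linarith
  refine ⟨?_, ?_, ?_, ?_⟩
  · have h1 : T / D * (q00 * D - q01 * c) - 1 = (q00 - 1) * T + (T - 1) - T / D * (q01 * c) := by
      field_simp
      ring
    rw [h1]
    refine (abs_sub _ _).trans ?_
    have h2 := abs_add_le ((q00 - 1) * T) (T - 1)
    have h3 := LCG_am h00 hTa
    have h4 := LCG_am hTD (LCG_am h01 hc1)
    linarith
  · have h1 : D / T * (q10 * D * z + q11 * (1 / D - c * z)) - 1 =
        D / T * (q10 * D * z) - D / T * (q11 * (c * z)) + 1 / T * ((q11 - 1) - (T - 1)) := by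
      field_simp
      ring
    rw [h1]
    refine (abs_add_le _ _).trans ?_
    have h2 := abs_sub (D / T * (q10 * D * z)) (D / T * (q11 * (c * z)))
    have h3 := LCG_am hDT (LCG_am (LCG_am h10 hDa) hz1)
    have h4 := LCG_am hDT (LCG_am hq11 (LCG_am hcb hz1))
    have h5 : |(q11 - 1) - (T - 1)| ≤ b + b / 10 := (abs_sub _ _).trans (by linarith)
    have h6 := LCG_am hTi h5
    linarith
  · have h1 : T / D * (q00 * D * z + q01 * (1 / D - c * z)) = T * (q00 * z) + T / D * (q01 * (1 / D - c * z)) := by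
      field_simp
    rw [h1]
    refine (abs_add_le _ _).trans ?_
    have h3 := LCG_am hTa (LCG_am hq00 hz)
    have h4 := LCG_am hTD (LCG_am h01 hcz)
    nlinarith
  · have h1 : |q10 * D - q11 * c| ≤ b * (13 / 10) + 101 / 100 * (b / 100) := by
      refine (abs_sub _ _).trans ?_
      exact add_le_add (LCG_am h10 hDa) (LCG_am hq11 hcb)
    have h2 := LCG_am hDT h1
    linarith

/-! ### Matrices -/

private lemma LCG_mul (g h : SL(2, ℝ)) : (g * h).1 0 0 = g.1 0 0 * h.1 0 0 + g.1 0 1 * h.1 1 0 ∧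
    (g * h).1 0 1 = g.1 0 0 * h.1 0 1 + g.1 0 1 * h.1 1 1 ∧
    (g * h).1 1 0 = g.1 1 0 * h.1 0 0 + g.1 1 1 * h.1 1 0 ∧
    (g * h).1 1 1 = g.1 1 0 * h.1 0 1 + g.1 1 1 * h.1 1 1 := by
  have h1 : (g * h).1 = g.1 * h.1 := rfl
  rw [h1]
  simp [Matrix.mul_apply, Fin.sum_univ_two]

private lemma LCG_inv (g : SL(2, ℝ)) : (g⁻¹).1 0 0 = g.1 1 1 ∧ (g⁻¹).1 0 1 = - g.1 0 1 ∧
    (g⁻¹).1 1 0 = - g.1 1 0 ∧ (g⁻¹).1 1 1 = g.1 0 0 := by
  have h1 : (g⁻¹).1 = g.1.adjugate := Matrix.SpecialLinearGroup.coe_inv g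
  rw [h1, Matrix.adjugate_fin_two]
  simp

private lemma LCG_det (g : SL(2, ℝ)) : g.1 0 0 * g.1 1 1 - g.1 0 1 * g.1 1 0 = 1 := by
  have := g.2
  rwa [Matrix.det_fin_two] at this

private lemma LCG_aM (t : ℝ) : (aM t).1 0 0 = Real.exp (t / 2) ∧ (aM t).1 0 1 = 0 ∧ (aM t).1 1 0 = 0 ∧
    (aM t).1 1 1 = Real.exp (-(t / 2)) := by
  simp [aM]

private lemma LCG_nM (x : ℝ) : (nM x).1 0 0 = 1 ∧ (nM x).1 0 1 = x ∧ (nM x).1 1 0 = 0 ∧ (nM x).1 1 1 = 1 := by
  simp [nM]

private lemma LCG_neg (g : SL(2, ℝ)) : (-g)⁻¹ = -g⁻¹ := by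
  apply inv_eq_of_mul_eq_one_right
  rw [neg_mul_neg, mul_inv_cancel]

private lemma LCG_im_smul (k : SL(2, ℝ)) (w : ℍ) : (k • w).im =
    w.im / ((k.1 1 0 * w.re + k.1 1 1) ^ 2 + (k.1 1 0 * w.im) ^ 2) := by
  have h1 : (k • w).im = ((k • w : ℍ) : ℂ).im := rfl
  have h2 : ((k • w : ℍ) : ℂ) = (((k.1 0 0 : ℝ) : ℂ) * w + ((k.1 0 1 : ℝ) : ℂ)) / (((k.1 1 0 : ℝ) : ℂ) * w + ((k.1 1 1 : ℝ) : ℂ)) :=
    coe_specialLinearGroup_apply k w
  rw [h1, h2, Complex.div_im, ← sub_div]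
  have h3 : Complex.normSq (((k.1 1 0 : ℝ) : ℂ) * w + ((k.1 1 1 : ℝ) : ℂ)) =
      (k.1 1 0 * w.re + k.1 1 1) ^ 2 + (k.1 1 0 * w.im) ^ 2 := by
    rw [Complex.normSq_apply]
    simp
    ring
  rw [h3]
  congr 1
  have h4 := LCG_det k
  simp
  linear_combination w.im * h4

private lemma LCG_re_smul (k : SL(2, ℝ)) (w : ℍ) : (k • w).re =
    (k.1 0 0 * k.1 1 0 * (w.re ^ 2 + w.im ^ 2) + (k.1 0 0 * k.1 1 1 + k.1 0 1 * k.1 1 0) * w.re + k.1 0 1 * k.1 1 1) /
      ((k.1 1 0 * w.re + k.1 1 1) ^ 2 + (k.1 1 0 * w.im) ^ 2) := by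
  have h1 : (k • w).re = ((k • w : ℍ) : ℂ).re := rfl
  have h2 : ((k • w : ℍ) : ℂ) = (((k.1 0 0 : ℝ) : ℂ) * w + ((k.1 0 1 : ℝ) : ℂ)) / (((k.1 1 0 : ℝ) : ℂ) * w + ((k.1 1 1 : ℝ) : ℂ)) :=
    coe_specialLinearGroup_apply k w
  rw [h1, h2, Complex.div_re, ← add_div]
  have h3 : Complex.normSq (((k.1 1 0 : ℝ) : ℂ) * w + ((k.1 1 1 : ℝ) : ℂ)) =
      (k.1 1 0 * w.re + k.1 1 1) ^ 2 + (k.1 1 0 * w.im) ^ 2 := by
    rw [Complex.normSq_apply]
    simp
    ring
  rw [h3]
  congr 1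
  simp
  ring

private lemma LCG_pts (b : ℝ) (hb : 0 < b) (d : ℝ) (hd1 : 3 / 4 ≤ |d|) (hd2 : |d| ≤ 13 / 10) :
    ∃ i : ℤ, |i| ≤ (⌈10 / b⌉₊ : ℤ) ∧ |Real.exp (-((i : ℝ) * (b / 10) / 2)) * |d| - 1| ≤ b / 10 ∨ 1 / 100 < b := by
  rcases lt_or_ge (1 / 100) b with h | h
  · exact ⟨0, Or.inr h⟩
  have hd : 0 < |d| := by linarith
  set x : ℝ := 2 * Real.log (|d|) / (b / 10) with hx
  refine ⟨round x, Or.inl ⟨?_, ?_⟩⟩
  · have hl : |Real.log (|d|)| ≤ 2 / 5 := by
      rw [abs_le]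
      constructor
      · have h1 := Real.one_sub_inv_le_log_of_pos hd
        have h2 : (|d|)⁻¹ ≤ 4 / 3 := by
          rw [inv_le_comm₀ hd (by norm_num)]
          linarith
        linarith
      · have h1 := Real.log_le_sub_one_of_pos hd
        linarith
    have h1 : |x| ≤ 8 / b := by
      rw [hx, abs_div, abs_of_pos (show 0 < b / 10 by positivity), div_le_div_iff₀ (by positivity) hb, abs_mul, abs_two]
      nlinarith
    have h2 := abs_sub_round x
    have h3 : |(round x : ℝ)| ≤ |x| + 1 / 2 := by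
      have : (round x : ℝ) = x - (x - round x) := by ring
      rw [this]
      refine (abs_sub _ _).trans ?_
      linarith
    have h4 : (10 : ℝ) / b ≤ (⌈10 / b⌉₊ : ℝ) := Nat.le_ceil _
    have h5 : 8 / b + 1 / 2 ≤ 10 / b := by
      rw [div_add' _ _ _ hb.ne', div_le_div_iff_of_pos_right hb]
      linarith
    have h6 : |(round x : ℝ)| ≤ (⌈10 / b⌉₊ : ℝ) := by linarith
    exact_mod_cast h6
  · have h2 := abs_sub_round x
    have h3 : Real.exp (-(((round x : ℤ) : ℝ) * (b / 10) / 2)) * |d| = Real.exp ((x - round x) * (b / 10) / 2) := by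
      have h4 : |d| = Real.exp (x * (b / 10) / 2) := by
        have h5 : x * (b / 10) / 2 = Real.log (|d|) := by
          rw [hx]
          field_simp
        rw [h5, Real.exp_log hd]
      rw [h4, ← Real.exp_add]
      congr 1
      ring
    rw [h3]
    have h4 : |(x - round x) * (b / 10) / 2| ≤ b / 40 := by
      rw [abs_div, abs_mul, abs_of_pos (show 0 < b / 10 by positivity), abs_two]
      nlinarith
    refine (Real.abs_exp_sub_one_le (h4.trans (by linarith))).trans ?_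
    linarith

theorem LCG_proof : LCG_stmt := by
  classical
  refine ⟨1 / 100, by norm_num, le_rfl, ?_⟩
  intro b hb hb1
  set M : ℤ := (⌈10 / b⌉₊ : ℤ) with hM
  set I : Finset ℤ := Finset.Icc (-M) M with hI
  refine ⟨2 * (I.card : ℝ) + 1, by positivity, ?_⟩
  intro Γ A
  set A1 : Finset SL(2, ℝ) := (A ×ˢ I).image (fun p => p.1 * aM ((p.2 : ℝ) * (b / 10))) with hA1
  refine ⟨A1 ∪ A1.image (fun g => -g), ?_, ?_⟩
  · have h1 : A1.card ≤ A.card * I.card := by
      rw [hA1]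
      exact Finset.card_image_le.trans (Finset.card_product _ _).le
    have h2 : (A1 ∪ A1.image (fun g => -g)).card ≤ A1.card + A1.card :=
      (Finset.card_union_le _ _).trans (Nat.add_le_add_left Finset.card_image_le _)
    have h3 : (A1 ∪ A1.image (fun g => -g)).card ≤ 2 * (A.card * I.card) := by omega
    have h4 : ((A1 ∪ A1.image (fun g => -g)).card : ℝ) ≤ 2 * (A.card * I.card) := by exact_mod_cast h3
    have h5 : (0 : ℝ) ≤ A.card := by positivity
    nlinarith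
  · intro v ξ g k w hv hv1 hξ hc hu hη1 hre him hgk
    obtain ⟨y, hy, γ, hq⟩ := hgk
    set q0 : SL(2, ℝ) := y⁻¹ * (γ : SL(2, ℝ)) * (g * k) with hq0
    obtain ⟨h00, h11, h01, h10⟩ := hq
    have hdet := LCG_det k
    have hN : 0 < (k.1 1 0 * w.re + k.1 1 1) ^ 2 + (k.1 1 0 * w.im) ^ 2 := by
      have hw := w.im_pos
      rcases eq_or_ne (k.1 1 0) 0 with h | h
      · rw [h] at hdet ⊢
        have h1 : k.1 1 1 ≠ 0 := by
          intro h2
          rw [h2] at hdet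
          norm_num at hdet
        have := pow_pos (abs_pos.2 h1) 2
        rw [sq_abs] at this
        nlinarith
      · have h1 : 0 < (k.1 1 0 * w.im) ^ 2 := by
          have h2 := mul_ne_zero h hw.ne'
          have := pow_pos (abs_pos.2 h2) 2
          rwa [sq_abs] at this
        have := sq_nonneg (k.1 1 0 * w.re + k.1 1 1)
        linarith
    rw [LCG_im_smul k w] at him
    rw [LCG_re_smul k w] at hre
    obtain ⟨hd1, hd2, hz⟩ := LCG_bd b v ξ (k.1 0 0) (k.1 0 1) (k.1 1 0) (k.1 1 1) w.re w.im hb hb1 hv hv1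
      (by linarith) hc hu w.im_pos hη1 hN him hre
    obtain ⟨i, hi⟩ := LCG_pts b hb (k.1 1 1) hd1 hd2
    rcases hi with ⟨hi1, hi2⟩ | hi
    swap
    · exact absurd hi (not_lt.2 hb1)
    set p := k.1 0 0 with hp
    set q := k.1 0 1 with hqd
    set c := k.1 1 0 with hcd
    set d := k.1 1 1 with hdd
    have hd0 : d ≠ 0 := by
      intro h
      rw [h, abs_zero] at hd1
      linarith
    have hiI : i ∈ I := by
      rw [hI, Finset.mem_Icc]
      exact abs_le.1 hi1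
    set τ : ℝ := (i : ℝ) * (b / 10) with hτ
    set t : ℝ := Real.exp (-(τ / 2)) with ht
    have htpos : 0 < t := Real.exp_pos _
    have hmem : y * aM τ ∈ A1 := by
      rw [hA1, Finset.mem_image]
      exact ⟨(y, i), Finset.mem_product.2 ⟨hy, hiI⟩, rfl⟩
    -- the matrix
    have hg : (y * aM τ)⁻¹ * (γ : SL(2, ℝ)) * (g * nM ξ) = (aM τ)⁻¹ * (q0 * (k⁻¹ * nM ξ)) := by
      rw [hq0]
      group
    set P : SL(2, ℝ) := (aM τ)⁻¹ * (q0 * (k⁻¹ * nM ξ)) with hP
    obtain ⟨a00, a01, a10, a11⟩ := LCG_aM τ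
    obtain ⟨b00, b01, b10, b11⟩ := LCG_inv (aM τ)
    obtain ⟨k00, k01, k10, k11⟩ := LCG_inv k
    obtain ⟨n00, n01, n10, n11⟩ := LCG_nM ξ
    obtain ⟨m00, m01, m10, m11⟩ := LCG_mul k⁻¹ (nM ξ)
    obtain ⟨r00, r01, r10, r11⟩ := LCG_mul q0 (k⁻¹ * nM ξ)
    obtain ⟨s00, s01, s10, s11⟩ := LCG_mul (aM τ)⁻¹ (q0 * (k⁻¹ * nM ξ))
    rw [← hP] at s00 s01 s10 s11
    rw [a11] at b00
    rw [a01] at b01
    rw [a10] at b10
    rw [a00] at b11
    have hexp : Real.exp (τ / 2) = t⁻¹ := by rw [ht, Real.exp_neg, inv_inv]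
    rw [hexp] at b11
    rw [k00, k01, n00, n10] at m00
    rw [k00, k01, n01, n11] at m01
    rw [k10, k11, n00, n10] at m10
    rw [k10, k11, n01, n11] at m11
    rw [← hdd, ← hqd] at m00 m01
    rw [← hcd, ← hp] at m10 m11
    rw [m00, m10] at r00 r10
    rw [m01, m11] at r01 r11
    rw [b00, b01, r00, r10] at s00
    rw [b00, b01, r01, r11] at s01
    rw [b10, b11, r00, r10] at s10
    rw [b10, b11, r01, r11] at s11
    rw [← ht] at s00 s01
    set q00 := q0.1 0 0 with hq00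
    set q01 := q0.1 0 1 with hq01
    set q10 := q0.1 1 0 with hq10
    set q11 := q0.1 1 1 with hq11
    set z : ℝ := ξ - q / d with hzd
    have hp1 : p = 1 / d + q / d * c := by
      field_simp
      linarith
    have hdz : d * ξ + -q = d * z := by
      rw [hzd]
      field_simp
      ring
    have hpz : -c * ξ + p = 1 / d - c * z := by
      rw [hzd, hp1]
      field_simp
      ring
    have e00 : P.1 0 0 = t * (q00 * d - q01 * c) := by rw [s00]; ring
    have e01 : P.1 0 1 = t * (q00 * (d * z) + q01 * (1 / d - c * z)) := by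
      rw [s01, ← hdz, ← hpz]; ring
    have e10 : P.1 1 0 = t⁻¹ * (q10 * d - q11 * c) := by rw [s10]; ring
    have e11 : P.1 1 1 = t⁻¹ * (q10 * (d * z) + q11 * (1 / d - c * z)) := by
      rw [s11, ← hdz, ← hpz]; ring
    -- the two signs
    rcases lt_or_gt_of_ne hd0 with hneg | hpos
    · have hD : |d| = -d := abs_of_neg hneg
      have hDpos : 0 < -d := by linarith
      rw [hD] at hd1 hd2 hi2
      obtain ⟨f00, f11, f01, f10⟩ := LCG_fin b v z (-c) (-d) (t * (-d)) q00 q01 q10 q11 hb hb1 hv hv1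
        (by rw [abs_neg]; exact hc) hz hd1 hd2 hi2 h00 h11 h01 h10
      have g1 : t * (-d) / (-d) = t := by field_simp
      have g2 : (-d) / (t * (-d)) = t⁻¹ := by field_simp
      rw [g1] at f00 f01
      rw [g2] at f11 f10
      have hnP : ∀ i j, (-P).1 i j = -(P.1 i j) := by
        intro i j
        simp
      refine ⟨-(y * aM τ), Finset.mem_union_right _ (Finset.mem_image_of_mem _ hmem), γ, ?_⟩
      have hfin : (-(y * aM τ))⁻¹ * (γ : SL(2, ℝ)) * (g * nM ξ) = -P := by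
        rw [LCG_neg, neg_mul, neg_mul, hg]
      rw [hfin]
      refine ⟨?_, ?_, ?_, ?_⟩
      · rw [hnP, e00]
        have : -(t * (q00 * d - q01 * c)) = t * (q00 * -d - q01 * -c) := by ring
        rw [this]; exact f00
      · rw [hnP, e11]
        have : -(t⁻¹ * (q10 * (d * z) + q11 * (1 / d - c * z))) = t⁻¹ * (q10 * -d * z + q11 * (1 / -d - -c * z)) := by
          rw [one_div_neg_eq_neg_one_div]; ring
        rw [this]; exact f11
      · rw [hnP, e01]
        have : -(t * (q00 * (d * z) + q01 * (1 / d - c * z))) = t * (q00 * -d * z + q01 * (1 / -d - -c * z)) := by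
          rw [one_div_neg_eq_neg_one_div]; ring
        rw [this]; exact f01
      · rw [hnP, e10]
        have : -(t⁻¹ * (q10 * d - q11 * c)) = t⁻¹ * (q10 * -d - q11 * -c) := by ring
        rw [this]; exact f10
    · have hD : |d| = d := abs_of_pos hpos
      rw [hD] at hd1 hd2 hi2
      obtain ⟨f00, f11, f01, f10⟩ := LCG_fin b v z c d (t * d) q00 q01 q10 q11 hb hb1 hv hv1
        hc hz hd1 hd2 hi2 h00 h11 h01 h10
      have g1 : t * d / d = t := by field_simp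
      have g2 : d / (t * d) = t⁻¹ := by field_simp
      rw [g1] at f00 f01
      rw [g2] at f11 f10
      refine ⟨y * aM τ, Finset.mem_union_left _ hmem, γ, ?_⟩
      rw [hg]
      refine ⟨?_, ?_, ?_, ?_⟩
      · rw [e00]; exact f00
      · rw [e11, ← mul_assoc q10 d z]; exact f11
      · rw [e01, ← mul_assoc q00 d z]; exact f01
      · rw [e10]; exact f10

end Pool.Agent.HV
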