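import Pool.Agent.helper62.HF.SpecV

/-! # Row hf:LFV (MP_07c750_an) -/

set_option autoImplicit false

open scoped MatrixGroups ContDiff Topology UpperHalfPlane ComplexConjugate
open UpperHalfPlane MeasureTheory Filter Set

namespace Pool.Agent.HV

open Pool.Agent.RS Pool.Agent.MS

private lemma LFV_cs (f : ℝ → ℝ) (hf : Continuous f) : (∫ u in (0 : ℝ)..1, f u) ^ 2 ≤ ∫ u in (0 : ℝ)..1, f u ^ 2 := by
  set c : ℝ := ∫ u in (0 : ℝ)..1, f u with hc
  have h1 : 0 ≤ ∫ u in (0 : ℝ)..1, (f u - c) ^ 2 :=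
    intervalIntegral.integral_nonneg (by norm_num) fun u _ => sq_nonneg _
  have h2 : ∫ u in (0 : ℝ)..1, (f u - c) ^ 2 = ∫ u in (0 : ℝ)..1, (f u ^ 2 - 2 * c * f u + c ^ 2) := by
    refine intervalIntegral.integral_congr fun u _ => ?_
    ring
  have h3 : IntervalIntegrable (fun u => f u ^ 2) volume 0 1 := (hf.pow 2).intervalIntegrable _ _
  have h4 : IntervalIntegrable (fun u => 2 * c * f u) volume 0 1 := (continuous_const.mul hf).intervalIntegrable _ _
  rw [h2, intervalIntegral.integral_add (h3.sub h4) (continuous_const.intervalIntegrable _ _),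
    intervalIntegral.integral_sub h3 h4, intervalIntegral.integral_const_mul, ← hc,
    intervalIntegral.integral_const] at h1
  simp only [sub_zero, smul_eq_mul, one_mul] at h1
  nlinarith

theorem LFV_proof : LFV_stmt := by
  intro Y J Q D D' hY hYI hQ hin hD hD'
  set e : ℤ → ℝ → ℂ := fun j v => Complex.exp (((Real.pi * j * v / 2 : ℝ) : ℂ) * Complex.I) with he
  have hec : ∀ j, Continuous (e j) := by
    intro j
    simp only [he]
    fun_prop
  have hDc : ∀ j, Continuous (D j) := fun j => continuous_iff_continuousAt.2 fun v => (hD j v).continuousAt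
  have hYf : volume Y ≠ ⊤ := by
    refine ne_top_of_le_ne_top ?_ (measure_mono hYI)
    rw [Real.volume_Icc]
    exact ENNReal.ofReal_ne_top
  -- integrability on Y of continuous functions
  have hint : ∀ f : ℝ → ℝ, Continuous f → IntegrableOn f Y volume := by
    intro f hf
    exact (hf.integrableOn_Icc (a := 0) (b := 1)).mono_set hYI
  set G : ℝ → ℝ → ℂ := fun v u => ∑ j ∈ J, D' j u * e j v with hG
  have hGc : Continuous (fun p : ℝ × ℝ => G p.1 p.2) := by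
    simp only [hG]
    refine continuous_finsetSum _ fun j _ => ?_
    exact ((hD' j).comp continuous_snd).mul ((hec j).comp continuous_fst)
  -- pointwise bound
  have hpt : ∀ v ∈ Y, ‖∑ j ∈ J, D j v * e j v‖ ^ 2 ≤ 2 * ‖∑ j ∈ J, D j 0 * e j v‖ ^ 2 + 2 * ∫ u in (0 : ℝ)..1, ‖G v u‖ ^ 2 := by
    intro v hv
    have hv01 := hYI hv
    have h1 : ∑ j ∈ J, D j v * e j v = ∑ j ∈ J, D j 0 * e j v + ∫ u in (0 : ℝ)..v, G v u := by
      simp only [hG]
      rw [intervalIntegral.integral_finsetSum]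
      · rw [← Finset.sum_add_distrib]
        refine Finset.sum_congr rfl fun j _ => ?_
        rw [intervalIntegral.integral_mul_const,
          intervalIntegral.integral_eq_sub_of_hasDerivAt (fun u _ => hD j u) ((hD' j).intervalIntegrable _ _)]
        ring
      · intro j _
        exact ((hD' j).mul continuous_const).intervalIntegrable _ _
    have hGv : Continuous (G v) := hGc.comp (Continuous.prodMk continuous_const continuous_id)
    have h2 : ‖∫ u in (0 : ℝ)..v, G v u‖ ^ 2 ≤ ∫ u in (0 : ℝ)..1, ‖G v u‖ ^ 2 := by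
      have h3 : ‖∫ u in (0 : ℝ)..v, G v u‖ ≤ ∫ u in (0 : ℝ)..1, ‖G v u‖ := by
        refine (intervalIntegral.norm_integral_le_integral_norm hv01.1).trans ?_
        exact intervalIntegral.integral_mono_interval le_rfl hv01.1 hv01.2
          (Filter.Eventually.of_forall fun u => norm_nonneg _) (hGv.norm.intervalIntegrable _ _)
      exact (pow_le_pow_left₀ (norm_nonneg _) h3 2).trans (LFV_cs (fun u => ‖G v u‖) hGv.norm)
    have h4 : ‖∑ j ∈ J, D j v * e j v‖ ^ 2 ≤ 2 * ‖∑ j ∈ J, D j 0 * e j v‖ ^ 2 + 2 * ‖∫ u in (0 : ℝ)..v, G v u‖ ^ 2 := by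
      rw [h1]
      have h5 := norm_add_le (∑ j ∈ J, D j 0 * e j v) (∫ u in (0 : ℝ)..v, G v u)
      have h6 := pow_le_pow_left₀ (norm_nonneg _) h5 2
      have h7 := sq_nonneg (‖∑ j ∈ J, D j 0 * e j v‖ - ‖∫ u in (0 : ℝ)..v, G v u‖)
      nlinarith
    linarith
  have hcA : Continuous fun v => ‖∑ j ∈ J, D j v * e j v‖ ^ 2 := by
    refine (Continuous.norm ?_).pow 2
    exact continuous_finsetSum _ fun j _ => (hDc j).mul (hec j)
  have hcB : Continuous fun v => ‖∑ j ∈ J, D j 0 * e j v‖ ^ 2 := by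
    refine (Continuous.norm ?_).pow 2
    exact continuous_finsetSum _ fun j _ => continuous_const.mul (hec j)
  have hGc2 : Continuous (fun p : ℝ × ℝ => ‖G p.1 p.2‖ ^ 2) := hGc.norm.pow 2
  have hcC : Continuous fun v => ∫ u in (0 : ℝ)..1, ‖G v u‖ ^ 2 :=
    intervalIntegral.continuous_parametric_intervalIntegral_of_continuous' (f := fun v u => ‖G v u‖ ^ 2) hGc2 0 1
  have hI1 : ∫ v in Y, ‖∑ j ∈ J, D j v * e j v‖ ^ 2 ≤ ∫ v in Y, (2 * ‖∑ j ∈ J, D j 0 * e j v‖ ^ 2 + 2 * ∫ u in (0 : ℝ)..1, ‖G v u‖ ^ 2) := by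
    refine setIntegral_mono_on (hint _ hcA) (hint _ ?_) hY hpt
    exact (continuous_const.mul hcB).add (continuous_const.mul hcC)
  have hI2 : ∫ v in Y, (2 * ‖∑ j ∈ J, D j 0 * e j v‖ ^ 2 + 2 * ∫ u in (0 : ℝ)..1, ‖G v u‖ ^ 2) =
      2 * (∫ v in Y, ‖∑ j ∈ J, D j 0 * e j v‖ ^ 2) + 2 * ∫ v in Y, ∫ u in (0 : ℝ)..1, ‖G v u‖ ^ 2 := by
    have h1 : IntegrableOn (fun v => 2 * ‖∑ j ∈ J, D j 0 * e j v‖ ^ 2) Y volume :=
      hint (fun v => 2 * ‖∑ j ∈ J, D j 0 * e j v‖ ^ 2) (continuous_const.mul hcB)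
    have h2 : IntegrableOn (fun v => 2 * ∫ u in (0 : ℝ)..1, ‖G v u‖ ^ 2) Y volume :=
      hint (fun v => 2 * ∫ u in (0 : ℝ)..1, ‖G v u‖ ^ 2) (continuous_const.mul hcC)
    rw [integral_add h1 h2, integral_const_mul, integral_const_mul]
  have hswap : ∫ v in Y, ∫ u in (0 : ℝ)..1, ‖G v u‖ ^ 2 = ∫ u in (0 : ℝ)..1, ∫ v in Y, ‖G v u‖ ^ 2 := by
    simp only [intervalIntegral.integral_of_le (zero_le_one' ℝ)]
    refine integral_integral_swap (f := fun v u => ‖G v u‖ ^ 2) ?_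
    have h1 : IntegrableOn (fun p : ℝ × ℝ => ‖G p.1 p.2‖ ^ 2) (Icc (0 : ℝ) 1 ×ˢ Icc (0 : ℝ) 1) (volume.prod volume) :=
      hGc2.continuousOn.integrableOn_compact (isCompact_Icc.prod isCompact_Icc)
    have h2 := h1.mono_set (prod_mono hYI (Ioc_subset_Icc_self (a := (0 : ℝ)) (b := 1)))
    rw [IntegrableOn, ← Measure.prod_restrict] at h2
    exact h2
  have hI3 : ∫ u in (0 : ℝ)..1, ∫ v in Y, ‖G v u‖ ^ 2 ≤ ∫ u in (0 : ℝ)..1, Q * ∑ j ∈ J, ‖D' j u‖ ^ 2 := by
    refine intervalIntegral.integral_mono_on (by norm_num) ?_ ?_ fun u _ => hin (fun j => D' j u)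
    · rw [intervalIntegrable_iff, uIoc_of_le (zero_le_one' ℝ)]
      have h1 : IntegrableOn (fun p : ℝ × ℝ => ‖G p.2 p.1‖ ^ 2) (Icc (0 : ℝ) 1 ×ˢ Icc (0 : ℝ) 1) (volume.prod volume) :=
        (hGc2.comp continuous_swap).continuousOn.integrableOn_compact (isCompact_Icc.prod isCompact_Icc)
      have h2 := h1.mono_set (prod_mono (Ioc_subset_Icc_self (a := (0 : ℝ)) (b := 1)) hYI)
      rw [IntegrableOn, ← Measure.prod_restrict] at h2
      exact h2.integral_prod_left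
    · refine Continuous.intervalIntegrable ?_ _ _
      exact continuous_const.mul (continuous_finsetSum _ fun j _ => (hD' j).norm.pow 2)
  rw [intervalIntegral.integral_const_mul] at hI3
  have hI4 := hin (fun j => D j 0)
  calc ∫ v in Y, ‖∑ j ∈ J, D j v * e j v‖ ^ 2
      ≤ 2 * (∫ v in Y, ‖∑ j ∈ J, D j 0 * e j v‖ ^ 2) + 2 * ∫ v in Y, ∫ u in (0 : ℝ)..1, ‖G v u‖ ^ 2 := by
        rw [← hI2]; exact hI1
    _ ≤ 2 * (Q * ∑ j ∈ J, ‖D j 0‖ ^ 2) + 2 * (Q * ∫ u in (0 : ℝ)..1, ∑ j ∈ J, ‖D' j u‖ ^ 2) := by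
        rw [hswap]
        have : ∫ v in Y, ‖∑ j ∈ J, D j 0 * e j v‖ ^ 2 ≤ Q * ∑ j ∈ J, ‖D j 0‖ ^ 2 := hI4
        linarith
    _ = _ := by ring

end Pool.Agent.HV
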