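import Pool.Agent.helper62.HF.SpecV

/-! # Row hf:PUX (MP_07c750_an) -/

set_option autoImplicit false

open scoped MatrixGroups ContDiff Topology UpperHalfPlane ComplexConjugate
open UpperHalfPlane MeasureTheory Filter Set

namespace Pool.Agent.HV

open Pool.Agent.RS Pool.Agent.MS

private lemma PUX_tel (F : ℤ → ℝ) (a : ℤ) (n : ℕ) :
    ∑ j ∈ Finset.Icc a (a + n), (F (j - 1) - F j) = F (a - 1) - F (a + n) := by
  induction n with
  | zero => simp
  | succ n ih =>
    have h1 : Finset.Icc a (a + ((n + 1 : ℕ) : ℤ)) = insert (a + ((n + 1 : ℕ) : ℤ)) (Finset.Icc a (a + (n : ℤ))) := by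
      ext j
      simp only [Finset.mem_Icc, Finset.mem_insert]
      push_cast
      omega
    have h2 : a + ((n + 1 : ℕ) : ℤ) ∉ Finset.Icc a (a + (n : ℤ)) := by
      simp only [Finset.mem_Icc]
      push_cast
      omega
    rw [h1, Finset.sum_insert h2, ih]
    have h3 : a + ((n + 1 : ℕ) : ℤ) - 1 = a + (n : ℤ) := by push_cast; ring
    rw [h3]
    ring

theorem PUX_proof : PUX_stmt := by
  refine ⟨fun x => Real.smoothTransition (x + 1) - Real.smoothTransition x, ?_, ?_, ?_, ?_⟩
  · have h1 : ContDiff ℝ ∞ Real.smoothTransition := Real.smoothTransition.contDiff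
    exact (h1.comp (contDiff_id.add contDiff_const)).sub h1
  · intro x
    rcases le_or_gt x 0 with h | h
    · have h1 : Real.smoothTransition x = 0 := Real.smoothTransition.zero_of_nonpos h
      simp only [h1, sub_zero]
      exact ⟨Real.smoothTransition.nonneg _, Real.smoothTransition.le_one _⟩
    · have h1 : Real.smoothTransition (x + 1) = 1 := Real.smoothTransition.one_of_one_le (by linarith)
      simp only [h1]
      exact ⟨by linarith [Real.smoothTransition.le_one x], by linarith [Real.smoothTransition.nonneg x]⟩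
  · intro x hx
    by_contra h
    rw [not_le] at h
    apply hx
    rcases lt_abs.1 h with h1 | h1
    · simp only [Real.smoothTransition.one_of_one_le (show (1 : ℝ) ≤ x + 1 by linarith),
        Real.smoothTransition.one_of_one_le (show (1 : ℝ) ≤ x by linarith), sub_self]
    · simp only [Real.smoothTransition.zero_of_nonpos (show x + 1 ≤ 0 by linarith),
        Real.smoothTransition.zero_of_nonpos (show x ≤ 0 by linarith), sub_self]
  · intro J0 x hx
    have h1 := PUX_tel (fun j : ℤ => Real.smoothTransition (x - j)) (-(J0 : ℤ)) (2 * J0)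
    have h2 : -(J0 : ℤ) + ((2 * J0 : ℕ) : ℤ) = J0 := by push_cast; ring
    rw [h2] at h1
    have h3 := abs_le.1 hx
    have h4 : Real.smoothTransition (x - ((-(J0 : ℤ) - 1 : ℤ) : ℝ)) = 1 := by
      apply Real.smoothTransition.one_of_one_le
      push_cast
      linarith [h3.1]
    have h5 : Real.smoothTransition (x - ((J0 : ℤ) : ℝ)) = 0 := by
      apply Real.smoothTransition.zero_of_nonpos
      push_cast
      linarith [h3.2]
    simp only [h4, h5, sub_zero] at h1
    refine Eq.trans ?_ h1
    refine Finset.sum_congr rfl fun j _ => ?_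
    have h6 : x - (j : ℝ) + 1 = x - ((j - 1 : ℤ) : ℝ) := by push_cast; ring
    rw [h6]

end Pool.Agent.HV
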